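import Pool.Agent.PCO.StmtsA

/-! PCO squad (MP_e54c4c_gt), row BXL (helper62): limits of boxes. -/

set_option autoImplicit false

open Matrix Filter Topology

namespace Pool.Agent.PCO.H62

open Pool.Agent.PFS Pool.Agent.PFJ Pool.Agent.PCO

/-- an adapted triangle over a unit -/
theorem ex_tri (hBF2 : Bf2Stmt) {n : ℕ} {C : Set (V n)} {Γ : Subgroup (GL (Fin n) ℝ)}
    (hC : CC C Γ) (hM : MaxCard C Γ 3) {U : Submodule ℝ (V n)} {v f : V n} (hB : Bx C Γ U v)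
    (hf : Unt C U f) : ∃ e ∈ U, ∃ e' ∈ U, IsPES C Γ ![e, e', v] ∧ e + e' = f := by
  obtain ⟨h1, h2, -, h4, -, -, -⟩ := hBF2 n C Γ hC hM U v hB
  obtain ⟨e, he, -⟩ := h4 0 0
  obtain ⟨τ, e', hτ, he', hind, hfe⟩ := h2 f hf e he
  have hτe : Bd C U (τ • e) := by
    obtain ⟨b1, b2, b3, b4⟩ := he
    refine ⟨U.smul_mem _ b1, hC.toPCone.cl_smul_pos b2 hτ, ?_, ?_⟩
    · intro h0
      rcases smul_eq_zero.1 h0 with h5 | h5
      · exact hτ.ne' h5
      · exact b3 h5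
    · intro hu
      apply b4
      have h5 := (Pool.Agent.PFJ.H76.unf n C hC.toPCone U (τ • e) hu).1 τ⁻¹ (inv_pos.2 hτ)
      rwa [smul_smul, inv_mul_cancel₀ hτ.ne', one_smul] at h5
  have hind' : Ind2 (τ • e) e' := by
    intro a b hab
    rw [smul_smul] at hab
    obtain ⟨h5, h6⟩ := hind _ _ hab
    refine ⟨?_, h6⟩
    rcases mul_eq_zero.1 h5 with h7 | h7
    · exact h7
    · exact absurd h7 hτ.ne'
  exact ⟨τ • e, hτe.1, e', he'.1, h1 _ _ hτe he' hind', hfe.symm⟩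

theorem iSup_lim {n : ℕ} {C : Set (V n)} {Γ : Subgroup (GL (Fin n) ℝ)}
    (hW : WbfStmt) {L : Fin 3 → Submodule ℝ (V n)} {w : Fin 3 → V n} (hB : Box C Γ L w bB) :
    (⨆ a, L a) = Wb (L 0) (w 2) := by
  rw [← (hW n).2.2.2.1 (L 0) (w 2)]
  congr 1
  funext a
  fin_cases a
  · rfl
  · show L 1 = Submodule.span ℝ {w 2}
    apply le_antisymm
    · intro x hx
      obtain ⟨c, hc⟩ := hB.one 2 (by decide) x hx
      rw [Submodule.mem_span_singleton]
      exact ⟨c, hc.symm⟩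
    · rw [Submodule.span_singleton_le_iff_mem]
      exact hB.mem 2
  · show L 2 = ⊥
    exact hB.bot 2 (by decide)

theorem bxl (hWbf : WbfStmt) (hBxc : BxcStmt) (hBf1 : Bf1Stmt) (hBf2 : Bf2Stmt) : BxlStmt := by
  intro n C Γ hC hM U v f p hB hfU hp htend
  -- large indices
  obtain ⟨N, hN⟩ := eventually_atTop.1 (htend.eventually (hC.isOpen.mem_nhds hp))
  have hunt : ∀ m, Unt C (U (m + N)) (f (m + N)) := by
    intro m
    have h1 : f (m + N) + (1 : ℝ) • v (m + N) ∈ C := by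
      rw [one_smul]
      exact hN (m + N) (Nat.le_add_left _ _)
    exact ((hBf1 n C Γ hC hM _ _ (hB (m + N))).2.2.2.2.2.1 _ (hfU _) 1).1 h1 |>.1
  have hex := fun m => ex_tri hBf2 hC hM (hB (m + N)) (hunt m)
  choose e heU e' he'U hpes hsum using hex
  have hbox : ∀ m, Box C Γ (bL (U (m + N)) (v (m + N))) ![e m, e' m, v (m + N)] bB := fun m =>
    (hBxc n C Γ hC (U (m + N)) (v (m + N))).1 (hB (m + N)) _ (heU m) _ (he'U m) (hpes m)
  have hs : ∀ m, ∑ i, ![e m, e' m, v (m + N)] i = f (m + N) + v (m + N) := by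
    intro m
    rw [Fin.sum_univ_three]
    show e m + e' m + v (m + N) = _
    rw [hsum]
  have hshift : Tendsto (fun m : ℕ => m + N) atTop atTop := tendsto_add_atTop_nat N
  have ht : Tendsto (fun m => ∑ i, ![e m, e' m, v (m + N)] i) atTop (𝓝 p) := by
    simp only [hs]
    exact htend.comp hshift
  obtain ⟨φ, L', w, hφ, hw, hwp, hL, hLs, -, hbox'⟩ := Pool.Agent.PFJ.H82.blmF n C Γ hC 3 le_rfl
    (fun m => bL (U (m + N)) (v (m + N))) (fun m => ![e m, e' m, v (m + N)]) bB p hbox hp ht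
  -- the dimension
  obtain ⟨ψ, L'', hψ, hL'', hdim⟩ := Pool.Agent.PFJ.H69.lsc n (fun m => U (φ m + N))
  obtain ⟨l1, -, l3, -, -⟩ := Pool.Agent.PFJ.H10.lsf n
  have hU0 : LimS (fun m => U (φ m + N)) (L' 0) := hL 0
  have hU1 : LimS (fun m => U (φ (ψ m) + N)) (L' 0) := l1 _ _ ψ hU0 hψ
  have hLL : L'' = L' 0 := l3 _ _ _ hL'' hU1
  have hBx : Bx C Γ (L' 0) (w 2) := (hBxc n C Γ hC (L' 0) (w 2)).2 L' w hbox'
  have hsum' : w 0 + w 1 + w 2 = p := by
    rw [← hwp, Fin.sum_univ_three]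
  have hmem : w 0 + w 1 ∈ L' 0 := Submodule.add_mem _ (hbox'.mem 0) (hbox'.mem 1)
  have hψt := hψ.tendsto_atTop
  have hw0 : Tendsto (fun m => e (φ (ψ m))) atTop (𝓝 (w 0)) := (hw 0).comp hψt
  have hw1 : Tendsto (fun m => e' (φ (ψ m))) atTop (𝓝 (w 1)) := (hw 1).comp hψt
  have hw2 : Tendsto (fun m => v (φ (ψ m) + N)) atTop (𝓝 (w 2)) := (hw 2).comp hψt
  refine ⟨fun m => φ (ψ m) + N, L' 0, w 2, w 0 + w 1, ?_, hBx, ?_, hsum', ?_, hw2, hU1, ?_, ?_⟩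
  · intro a b hab
    exact Nat.add_lt_add_right (hφ (hψ hab)) N
  · refine ((hBf1 n C Γ hC hM _ _ hBx).2.2.2.2.2.1 _ hmem 1).1 ?_ |>.1
    rw [one_smul, hsum']
    exact hp
  · have h1 := hw0.add hw1
    simp only [hsum] at h1
    exact h1
  · have h1 : LimS (fun m => ⨆ a, bL (U (φ (ψ m) + N)) (v (φ (ψ m) + N)) a) (⨆ a, L' a) :=
      l1 _ _ ψ hLs hψ
    rw [iSup_lim hWbf hbox'] at h1
    simp only [(hWbf n).2.2.2.1] at h1
    exact h1
  · intro m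
    rw [hdim m, hLL]

end Pool.Agent.PCO.H62
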